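import Pool.Agent.Run7.h851.T.Iface

/-! Certificates for the potential `FN`, `w ≥ 22000` (piece `T-V1`). -/

open Polynomial Pool.Agent.H337R2 Pool.Agent.Run7.h851.T

namespace Pool.Agent.Run7.h221.T

namespace V1

/-- sum of the potentials of `L` bricks with the same step `c`, the first brick starting at `B` -/
lemma zone (a L : ℕ) (B : ℤ) (c : ℕ) (hc : c ≠ 0) (w : ℝ)
    (hb : ∀ i < L, bb (a + i) = B + c * (i : ℤ)) (hcc : ∀ i < L, cc (a + i) = c) :
    ∑ i ∈ Finset.range L, Ub (a + i) w =
      ((Psi (w - B) - Psi (w - (B + c * L))) + (Psi (w + (B + c * L)) - Psi (w + B))) / c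
        - 2 * L * Real.log 1000 := by
  have hc' : (c : ℝ) ≠ 0 := by exact_mod_cast hc
  induction L with
  | zero => simp
  | succ L ih =>
    rw [Finset.sum_range_succ, ih (fun i hi => hb i (by omega)) (fun i hi => hcc i (by omega)), Ub,
      hb L (by omega), hcc L (by omega)]
    push_cast
    have e1 : w - ((B : ℝ) + c * L) - c = w - (B + c * (L + 1)) := by ring
    have e2 : w + ((B : ℝ) + c * L) + c = w + (B + c * (L + 1)) := by ring
    rw [e1, e2]
    field_simp
    ring

/-- the same for an interval of bricks -/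
lemma zoneI (a b : ℕ) (B : ℤ) (c : ℕ) (hc : c ≠ 0) (w : ℝ)
    (hb : ∀ i < b - a, bb (a + i) = B + c * (i : ℤ)) (hcc : ∀ i < b - a, cc (a + i) = c) :
    ∑ g ∈ Finset.Ico a b, Ub g w =
      ((Psi (w - B) - Psi (w - (B + c * ((b - a : ℕ) : ℝ)))) +
        (Psi (w + (B + c * ((b - a : ℕ) : ℝ))) - Psi (w + B))) / c - 2 * ((b - a : ℕ) : ℝ) * Real.log 1000 := by
  rw [Finset.sum_Ico_eq_sum_range, zone a (b - a) B c hc w hb hcc]

lemma log1000 : Real.log 1000 = 3 * Real.log 2 + 3 * Real.log 5 := by
  rw [show (1000 : ℝ) = 2 ^ 3 * 5 ^ 3 by norm_num, Real.log_mul (by norm_num) (by norm_num), Real.log_pow,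
    Real.log_pow]
  norm_num

/-- the zeta part of the nodes -/
lemma sumZ (w : ℝ) : ∑ g ∈ Finset.range 24, Ub g w =
    ((Psi (w - 2000) - Psi (w - 22000)) + (Psi (w + 22000) - Psi (w + 2000))) / 1000 +
    ((Psi (w - 22000) - Psi (w - 23010)) + (Psi (w + 23010) - Psi (w + 22000))) / 1010 +
    ((Psi (w - 23010) - Psi (w - 24430)) + (Psi (w + 24430) - Psi (w + 23010))) / 1420 +
    ((Psi (w - 24430) - Psi (w - 26980)) + (Psi (w + 26980) - Psi (w + 24430))) / 2550 +
    ((Psi (w - 26980) - Psi (w - 33180)) + (Psi (w + 33180) - Psi (w + 26980))) / 6200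
    - 48 * Real.log 1000 := by
  rw [Finset.range_eq_Ico, ← Finset.sum_Ico_consecutive _ (show 0 ≤ 20 by norm_num) (show 20 ≤ 24 by norm_num),
    ← Finset.sum_Ico_consecutive _ (show 20 ≤ 21 by norm_num) (show 21 ≤ 24 by norm_num),
    ← Finset.sum_Ico_consecutive _ (show 21 ≤ 22 by norm_num) (show 22 ≤ 24 by norm_num),
    ← Finset.sum_Ico_consecutive _ (show 22 ≤ 23 by norm_num) (show 23 ≤ 24 by norm_num),
    zoneI 0 20 2000 1000 (by norm_num) w (by decide) (by decide),
    zoneI 20 21 22000 1010 (by norm_num) w (by decide) (by decide),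
    zoneI 21 22 23010 1420 (by norm_num) w (by decide) (by decide),
    zoneI 22 23 24430 2550 (by norm_num) w (by decide) (by decide),
    zoneI 23 24 26980 6200 (by norm_num) w (by decide) (by decide)]
  norm_num
  ring

/-- the rows in the pole part -/
lemma sumP (w : ℝ) : ∑ g ∈ Finset.Ico 24 72, Ub g w =
    (Psi (w + 792) - Psi (w - 792)) / 33 +
    ((Psi (w - 792) - Psi (w - 1224)) + (Psi (w + 1224) - Psi (w + 792))) / 36 +
    ((Psi (w - 1224) - Psi (w - 1452)) + (Psi (w + 1452) - Psi (w + 1224))) / 38 +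
    ((Psi (w - 1452) - Psi (w - 1648)) + (Psi (w + 1648) - Psi (w + 1452))) / 49 +
    ((Psi (w - 1648) - Psi (w - 1814)) + (Psi (w + 1814) - Psi (w + 1648))) / 83
    - 96 * Real.log 1000 := by
  rw [← Finset.sum_Ico_consecutive _ (show 24 ≤ 48 by norm_num) (show 48 ≤ 72 by norm_num),
    ← Finset.sum_Ico_consecutive _ (show 48 ≤ 60 by norm_num) (show 60 ≤ 72 by norm_num),
    ← Finset.sum_Ico_consecutive _ (show 60 ≤ 66 by norm_num) (show 66 ≤ 72 by norm_num),
    ← Finset.sum_Ico_consecutive _ (show 66 ≤ 70 by norm_num) (show 70 ≤ 72 by norm_num),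
    zoneI 24 48 0 33 (by norm_num) w (by decide) (by decide),
    zoneI 48 60 792 36 (by norm_num) w (by decide) (by decide),
    zoneI 60 66 1224 38 (by norm_num) w (by decide) (by decide),
    zoneI 66 70 1452 49 (by norm_num) w (by decide) (by decide),
    zoneI 70 72 1648 83 (by norm_num) w (by decide) (by decide)]
  norm_num
  ring

/-- the list of the potential -/
def lF : List (ℤ × ℤ) :=
  [(4662959207445, -33180), (6674431806735, -26980), (9022008342270, -24430), (8264706669450, -23010), (286241060259, -22000), (-954041453843247, -2000), (174158717386500, -1814), (120844824309000, -1648), (85395762069750, -1452), (21133294653625, -1224), (36502963492625, -792), (-36502963492625, 792), (-21133294653625, 1224), (-85395762069750, 1452), (-120844824309000, 1648), (-174158717386500, 1814), (954041453843247, 2000), (-286241060259, 22000), (-8264706669450, 23010), (-9022008342270, 24430), (-6674431806735, 26980), (-4662959207445, 33180)]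

lemma FN_eq (w : ℝ) : FN w = (704 * Real.log 2 + 192 * Real.log 5 - 256) + EF 14455173543079500 1 lF w := by
  unfold FN phi
  rw [sumZ, sumP, log1000]
  simp only [EF, lF, List.map_cons, List.map_nil, List.sum_cons, List.sum_nil]
  norm_num
  ring

lemma const_bound : 704 * Real.log 2 + 192 * Real.log 5 - 256 ≤ 540988 / 1000 := by
  have h2 := abs_le.mp (lnA_spec 2 (by norm_num) (by norm_num))
  have h5 := abs_le.mp (lnA_spec 5 (by norm_num) (by norm_num))
  have e2 : lnA 2 = 693147180560 := by decide +kernel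
  have e5 : lnA 5 = 1609437912428 := by decide +kernel
  rw [e2] at h2
  rw [e5] at h5
  push_cast at h2 h5
  linarith [h2.1, h2.2, h5.1, h5.2]

/-- consecutive segments `(step, number of cells)` -/
def chkL (l : List (ℤ × ℤ)) (A : ℤ) : List (ℤ × ℕ) → ℤ → Bool
  | [], _ => true
  | s :: r, x0 => decide (s.2 ≠ 0) && chk 1 l A s.1 s.2 x0 && chkL l A r (x0 + s.2 * s.1)

/-- the right end point -/
def endL : List (ℤ × ℕ) → ℤ → ℤ
  | [], x0 => x0
  | s :: r, x0 => endL r (x0 + s.2 * s.1)

lemma EF_le_segs {Dc : ℕ} (hD : 0 < Dc) {l : List (ℤ × ℤ)} {A : ℤ} (a : ℝ)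
    (hA : (A : ℝ) ≤ a * (10 ^ 12 * Dc * (1 : ℕ))) (r : List (ℤ × ℕ)) :
    ∀ x0 : ℤ, r ≠ [] → chkL l A r x0 = true → ∀ v : ℝ, (x0 : ℝ) ≤ v → v ≤ endL r x0 → EF Dc 1 l v ≤ a := by
  induction r with
  | nil => intro x0 h; exact absurd rfl h
  | cons s r ih =>
    intro x0 _ h v h0 h1
    simp only [chkL, Bool.and_eq_true, decide_eq_true_eq] at h
    obtain ⟨⟨hs, hc⟩, hr⟩ := h
    rcases le_or_gt v ((x0 + s.2 * s.1 : ℤ) : ℝ) with hv | hv
    · exact EF_le hD (le_refl 1) (by norm_num) a hA hs hc v (by simpa using h0) (by simpa using hv)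
    · rcases eq_or_ne r [] with hr0 | hr0
      · subst hr0
        simp only [endL] at h1
        exact absurd h1 (not_le.2 hv)
      · exact ih (x0 + s.2 * s.1) hr0 hr v hv.le h1

/-- the segments -/
def sg : List (ℤ × ℕ) :=
  [(512, 1), (256, 1), (128, 1), (64, 1), (32, 1), (16, 1), (2, 1), (1024, 1), (256, 1), (128, 1), (8, 1), (4, 1), (512, 4), (256, 1), (128, 1), (64, 1), (32, 1), (16, 1), (4, 1), (2, 1), (256, 2), (512, 4), (1024, 3), (512, 1), (32, 1), (16, 1), (8, 1), (1024, 2), (2048, 4), (4096, 4), (8192, 4), (4096, 1), (2048, 1), (1024, 1), (256, 1), (4, 1)]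

lemma E_up (v : ℝ) (h1 : 22000 ≤ v) (h2 : v ≤ 100000) : EF 14455173543079500 1 lF v ≤ -(6792 / 10) :=
  EF_le_segs (A := -9817953870459596400000000000000) (by norm_num) (-(6792 / 10)) (by norm_num) sg 22000 (by decide) (by decide +kernel) v
    (by norm_num; exact h1) (by
      have e : endL sg 22000 = 100000 := by decide +kernel
      rw [e]
      norm_num
      exact h2)

lemma Psi_up (w k : ℝ) (hw : 0 < w) (hk : 0 < w - k) :
    Psi (w - k) ≤ Psi w - k * Real.log w + k ^ 2 * (1 / w) := by
  have h1 : Real.log ((w - k) / w) ≤ (w - k) / w - 1 :=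
    Real.log_le_sub_one_of_pos (div_pos hk hw)
  rw [Real.log_div hk.ne' hw.ne'] at h1
  have h2 := mul_le_mul_of_nonneg_left h1 hk.le
  have h3 : (w - k) * ((w - k) / w - 1) = -k + k ^ 2 * (1 / w) := by
    field_simp
    ring
  rw [h3] at h2
  unfold Psi
  linarith [h2, mul_sub (w - k) (Real.log (w - k)) (Real.log w)]

lemma Psi_lo (w k : ℝ) (hw : 0 < w) (hk : 0 < w - k) :
    Psi w - k * Real.log w ≤ Psi (w - k) := by
  have h1 : Real.log (w / (w - k)) ≤ w / (w - k) - 1 :=
    Real.log_le_sub_one_of_pos (div_pos hw hk)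
  rw [Real.log_div hw.ne' hk.ne'] at h1
  have h2 := mul_le_mul_of_nonneg_left h1 hk.le
  have h3 : (w - k) * (w / (w - k) - 1) = k := by
    field_simp
    ring
  rw [h3] at h2
  unfold Psi
  linarith [h2, mul_sub (w - k) (Real.log w) (Real.log (w - k))]

lemma E_tail (w : ℝ) (h1 : 100000 ≤ w) : EF 14455173543079500 1 lF w + 64 * Real.log w ≤ 19 := by
  have hw : 0 < w := by linarith
  have hiw : 1 / w ≤ 1 / 100000 := one_div_le_one_div_of_le (by norm_num) h1
  have t0 := Psi_up w (-33180) hw (by linarith)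
  have t1 := Psi_up w (-26980) hw (by linarith)
  have t2 := Psi_up w (-24430) hw (by linarith)
  have t3 := Psi_up w (-23010) hw (by linarith)
  have t4 := Psi_up w (-22000) hw (by linarith)
  have t5 := Psi_lo w (-2000) hw (by linarith)
  have t6 := Psi_up w (-1814) hw (by linarith)
  have t7 := Psi_up w (-1648) hw (by linarith)
  have t8 := Psi_up w (-1452) hw (by linarith)
  have t9 := Psi_up w (-1224) hw (by linarith)
  have t10 := Psi_up w (-792) hw (by linarith)
  have t11 := Psi_lo w (792) hw (by linarith)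
  have t12 := Psi_lo w (1224) hw (by linarith)
  have t13 := Psi_lo w (1452) hw (by linarith)
  have t14 := Psi_lo w (1648) hw (by linarith)
  have t15 := Psi_lo w (1814) hw (by linarith)
  have t16 := Psi_up w (2000) hw (by linarith)
  have t17 := Psi_lo w (22000) hw (by linarith)
  have t18 := Psi_lo w (23010) hw (by linarith)
  have t19 := Psi_lo w (24430) hw (by linarith)
  have t20 := Psi_lo w (26980) hw (by linarith)
  have t21 := Psi_lo w (33180) hw (by linarith)
  have e : EF 14455173543079500 1 lF w = (((4662959207445) : ℝ) / 14455173543079500) * Psi (w - (-33180)) +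
    (((6674431806735) : ℝ) / 14455173543079500) * Psi (w - (-26980)) +
    (((9022008342270) : ℝ) / 14455173543079500) * Psi (w - (-24430)) +
    (((8264706669450) : ℝ) / 14455173543079500) * Psi (w - (-23010)) +
    (((286241060259) : ℝ) / 14455173543079500) * Psi (w - (-22000)) +
    (((-954041453843247) : ℝ) / 14455173543079500) * Psi (w - (-2000)) +
    (((174158717386500) : ℝ) / 14455173543079500) * Psi (w - (-1814)) +
    (((120844824309000) : ℝ) / 14455173543079500) * Psi (w - (-1648)) +
    (((85395762069750) : ℝ) / 14455173543079500) * Psi (w - (-1452)) +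
    (((21133294653625) : ℝ) / 14455173543079500) * Psi (w - (-1224)) +
    (((36502963492625) : ℝ) / 14455173543079500) * Psi (w - (-792)) +
    (((-36502963492625) : ℝ) / 14455173543079500) * Psi (w - (792)) +
    (((-21133294653625) : ℝ) / 14455173543079500) * Psi (w - (1224)) +
    (((-85395762069750) : ℝ) / 14455173543079500) * Psi (w - (1452)) +
    (((-120844824309000) : ℝ) / 14455173543079500) * Psi (w - (1648)) +
    (((-174158717386500) : ℝ) / 14455173543079500) * Psi (w - (1814)) +
    (((954041453843247) : ℝ) / 14455173543079500) * Psi (w - (2000)) +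
    (((-286241060259) : ℝ) / 14455173543079500) * Psi (w - (22000)) +
    (((-8264706669450) : ℝ) / 14455173543079500) * Psi (w - (23010)) +
    (((-9022008342270) : ℝ) / 14455173543079500) * Psi (w - (24430)) +
    (((-6674431806735) : ℝ) / 14455173543079500) * Psi (w - (26980)) +
    (((-4662959207445) : ℝ) / 14455173543079500) * Psi (w - (33180)) := by
    simp only [EF, lF, List.map_cons, List.map_nil, List.sum_cons, List.sum_nil]
    norm_num
    ring
  rw [e]
  have m0 := mul_le_mul_of_nonneg_left t0 (by norm_num : (0 : ℝ) ≤ 4662959207445 / 14455173543079500)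
  have m1 := mul_le_mul_of_nonneg_left t1 (by norm_num : (0 : ℝ) ≤ 6674431806735 / 14455173543079500)
  have m2 := mul_le_mul_of_nonneg_left t2 (by norm_num : (0 : ℝ) ≤ 9022008342270 / 14455173543079500)
  have m3 := mul_le_mul_of_nonneg_left t3 (by norm_num : (0 : ℝ) ≤ 8264706669450 / 14455173543079500)
  have m4 := mul_le_mul_of_nonneg_left t4 (by norm_num : (0 : ℝ) ≤ 286241060259 / 14455173543079500)
  have m5 := mul_le_mul_of_nonneg_left t5 (by norm_num : (0 : ℝ) ≤ 954041453843247 / 14455173543079500)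
  have m6 := mul_le_mul_of_nonneg_left t6 (by norm_num : (0 : ℝ) ≤ 174158717386500 / 14455173543079500)
  have m7 := mul_le_mul_of_nonneg_left t7 (by norm_num : (0 : ℝ) ≤ 120844824309000 / 14455173543079500)
  have m8 := mul_le_mul_of_nonneg_left t8 (by norm_num : (0 : ℝ) ≤ 85395762069750 / 14455173543079500)
  have m9 := mul_le_mul_of_nonneg_left t9 (by norm_num : (0 : ℝ) ≤ 21133294653625 / 14455173543079500)
  have m10 := mul_le_mul_of_nonneg_left t10 (by norm_num : (0 : ℝ) ≤ 36502963492625 / 14455173543079500)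
  have m11 := mul_le_mul_of_nonneg_left t11 (by norm_num : (0 : ℝ) ≤ 36502963492625 / 14455173543079500)
  have m12 := mul_le_mul_of_nonneg_left t12 (by norm_num : (0 : ℝ) ≤ 21133294653625 / 14455173543079500)
  have m13 := mul_le_mul_of_nonneg_left t13 (by norm_num : (0 : ℝ) ≤ 85395762069750 / 14455173543079500)
  have m14 := mul_le_mul_of_nonneg_left t14 (by norm_num : (0 : ℝ) ≤ 120844824309000 / 14455173543079500)
  have m15 := mul_le_mul_of_nonneg_left t15 (by norm_num : (0 : ℝ) ≤ 174158717386500 / 14455173543079500)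
  have m16 := mul_le_mul_of_nonneg_left t16 (by norm_num : (0 : ℝ) ≤ 954041453843247 / 14455173543079500)
  have m17 := mul_le_mul_of_nonneg_left t17 (by norm_num : (0 : ℝ) ≤ 286241060259 / 14455173543079500)
  have m18 := mul_le_mul_of_nonneg_left t18 (by norm_num : (0 : ℝ) ≤ 8264706669450 / 14455173543079500)
  have m19 := mul_le_mul_of_nonneg_left t19 (by norm_num : (0 : ℝ) ≤ 9022008342270 / 14455173543079500)
  have m20 := mul_le_mul_of_nonneg_left t20 (by norm_num : (0 : ℝ) ≤ 6674431806735 / 14455173543079500)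
  have m21 := mul_le_mul_of_nonneg_left t21 (by norm_num : (0 : ℝ) ≤ 4662959207445 / 14455173543079500)
  linarith [m0, m1, m2, m3, m4, m5, m6, m7, m8, m9, m10, m11, m12, m13, m14, m15, m16, m17, m18, m19, m20, m21]

end V1

open V1

/-- decay -/
theorem t_V1_tail : St_V1_tail := by
  intro w h1
  rw [FN_eq]
  have h := E_tail w h1
  have hc := const_bound
  have h2 := abs_le.mp (lnA_spec 2 (by norm_num) (by norm_num))
  have h5 := abs_le.mp (lnA_spec 5 (by norm_num) (by norm_num))
  have e2 : lnA 2 = 693147180560 := by decide +kernel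
  have e5 : lnA 5 = 1609437912428 := by decide +kernel
  rw [e2] at h2
  rw [e5] at h5
  push_cast at h2 h5
  have h10 : Real.log 100000 = 5 * Real.log 2 + 5 * Real.log 5 := by
    rw [show (100000 : ℝ) = 2 ^ 5 * 5 ^ 5 by norm_num, Real.log_mul (by norm_num) (by norm_num), Real.log_pow,
      Real.log_pow]
    norm_num
  have h3 : Real.log 100000 ≤ Real.log w := Real.log_le_log (by norm_num) h1
  rw [h10] at h3 ⊢
  linarith [h2.1, h2.2, h5.1, h5.2, hc]

theorem t_V1_upper : St_V1_upper := by
  intro w h1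
  rcases le_total w 100000 with h | h
  · rw [FN_eq]
    linarith [E_up w h1 h, const_bound]
  · have h2 := t_V1_tail w h
    have h3 : Real.log 100000 ≤ Real.log w := Real.log_le_log (by norm_num) h
    linarith

end Pool.Agent.Run7.h221.T
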